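import Pool.Agent.P.MP_22b27c_co.All
import Pool.Agent.P.MP_22b27c_co.Fin0

namespace Pool.Agent.Results.MP_22b27c_co.Integral

/-- Among kissing configurations in dimension nine all of whose inner products are integer
multiples of one quarter, the largest size is 306. -/
theorem result :
    IsGreatest {n : ℕ | ∃ S : Finset (EuclideanSpace ℝ (Fin 9)), S.card = n ∧
      (∀ x ∈ S, ‖x‖ = 1) ∧ (∀ x ∈ S, ∀ y ∈ S, x ≠ y → inner ℝ x y ≤ (1 / 2 : ℝ)) ∧
      ∀ x ∈ S, ∀ y ∈ S, ∃ k : ℤ, inner ℝ x y = (k : ℝ) / 4} 306 :=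
  Pool.Agent.P.MP_22b27c_co.final Pool.Agent.P.MP_22b27c_co.a_up Pool.Agent.P.MP_22b27c_co.k_ex

end Pool.Agent.Results.MP_22b27c_co.Integral
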